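import Pool.Agent.H92.EHD.TP

/-!
Row EA4: the integral over a shell and the integral over an affine hyperplane.
-/

set_option autoImplicit false

open MeasureTheory Pool.Agent.H92.EQ Pool.Agent.H92.EHD

namespace Pool.Agent.H26.EHD.EA4

theorem fsa_symm' {N : ℕ} (y : ℂ × (Fin N → ℂ)) :
    (MeasurableEquiv.piFinSuccAbove (fun _ : Fin (N + 1) => ℂ) 0).symm y = ct y.1 y.2 := by
  funext j
  simp only [MeasurableEquiv.piFinSuccAbove_symm_apply]
  refine Fin.cases ?_ (fun i => ?_) j
  · simp [ct]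
  · simp [ct]

/-- Tonelli -/
theorem lint_ct {k : ℕ} (G : (Fin (k + 1) → ℂ) → ENNReal) (hG : Measurable G) :
    ∫⁻ z, G z = ∫⁻ t : ℂ, ∫⁻ x : Fin k → ℂ, G (ct t x) := by
  have hmp := (volume_preserving_piFinSuccAbove (fun _ : Fin (k + 1) => ℂ) 0).symm
  rw [← hmp.lintegral_comp hG, Measure.volume_eq_prod, lintegral_prod]
  · simp only [fsa_symm']
  · exact (hG.comp (MeasurableEquiv.measurable _)).aemeasurable

theorem meas_ct {k : ℕ} : Measurable (fun p : ℂ × (Fin k → ℂ) => (ct p.1 p.2 : Fin (k + 1) → ℂ)) := by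
  have h1 : (fun p : ℂ × (Fin k → ℂ) => (ct p.1 p.2 : Fin (k + 1) → ℂ)) =
      (MeasurableEquiv.piFinSuccAbove (fun _ : Fin (k + 1) => ℂ) 0).symm := by
    funext p
    rw [fsa_symm']
  rw [h1]
  exact MeasurableEquiv.measurable _

/-- scaling -/
theorem scale {k : ℕ} (l : ℂ) (hl : l ≠ 0) (f : (Fin k → ℂ) → ENNReal) (hf : Measurable f) :
    ∫⁻ w, f (l • w) = ENNReal.ofReal ((‖l‖ ^ (2 * k))⁻¹) * ∫⁻ w, f w := by
  have hl0 : 0 < ‖l‖ := norm_pos_iff.mpr hl
  obtain ⟨u, hu⟩ : ∃ u : Circle, (u : ℂ) = l / ‖l‖ := by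
    refine ⟨⟨l / ‖l‖, mem_sphere_zero_iff_norm.mpr ?_⟩, rfl⟩
    rw [norm_div, Complex.norm_real, norm_norm, div_self hl0.ne']
  have hrot : MeasurePreserving (fun (w : Fin k → ℂ) (i : Fin k) => rotation u (w i)) volume
      volume := volume_preserving_pi fun _ => (rotation u).measurePreserving
  have h1 : ∀ w : Fin k → ℂ, l • w = (‖l‖ : ℝ) • (fun i => rotation u (w i)) := by
    intro w
    funext i
    rw [Pi.smul_apply, Pi.smul_apply, rotation_apply, hu, smul_eq_mul, Complex.real_smul]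
    have : ((‖l‖ : ℝ) : ℂ) ≠ 0 := by exact_mod_cast hl0.ne'
    field_simp
  have h2 : Measurable (fun w : Fin k → ℂ => f ((‖l‖ : ℝ) • w)) :=
    hf.comp (measurable_const_smul (‖l‖ : ℝ))
  calc ∫⁻ w, f (l • w) = ∫⁻ w : Fin k → ℂ, f ((‖l‖ : ℝ) • (fun i => rotation u (w i))) := by
        simp only [h1]
    _ = ∫⁻ w : Fin k → ℂ, f ((‖l‖ : ℝ) • w) :=
        hrot.lintegral_comp (f := fun w : Fin k → ℂ => f ((‖l‖ : ℝ) • w)) h2
    _ = ∫⁻ w, f w ∂(Measure.map ((‖l‖ : ℝ) • ·) (volume : Measure (Fin k → ℂ))) :=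
        (lintegral_map hf (measurable_const_smul (‖l‖ : ℝ))).symm
    _ = _ := by
        rw [Measure.map_addHaar_smul _ hl0.ne', lintegral_smul_measure, smul_eq_mul]
        congr 2
        have hfr : Module.finrank ℝ (Fin k → ℂ) = 2 * k := by
          rw [Module.finrank_pi_fintype]
          simp [Complex.finrank_real_complex, mul_comm]
        rw [hfr, abs_of_nonneg (by positivity)]

theorem lint_inv' {p q : ℝ} (hp : 0 < p) (hq : p < q) :
    ∫⁻ s in Set.Ico p q, ENNReal.ofReal s⁻¹ = ENNReal.ofReal (Real.log (q / p)) := by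
  rw [setLIntegral_congr Ico_ae_eq_Ioc]
  have h1 : IntervalIntegrable (fun s : ℝ => s⁻¹) volume p q := by
    refine intervalIntegral.intervalIntegrable_inv (fun s hs => ?_) continuousOn_id
    rw [Set.uIcc_of_le hq.le] at hs
    exact ne_of_gt (lt_of_lt_of_le hp hs.1)
  have h2 : IntegrableOn (fun s : ℝ => s⁻¹) (Set.Ioc p q) volume :=
    (intervalIntegrable_iff_integrableOn_Ioc_of_le hq.le).mp h1
  rw [← ofReal_integral_eq_lintegral_ofReal h2]
  · rw [← intervalIntegral.integral_of_le hq.le, integral_inv_of_pos hp (lt_trans hp hq)]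
  · refine (ae_restrict_mem measurableSet_Ioc).mono fun s hs => ?_
    have : 0 < s := lt_trans hp hs.1
    simp only [Pi.zero_apply]
    positivity

open Classical in
/-- the radial integral -/
theorem radial (a : ℝ) : ∫⁻ t : ℂ, (if 0 ≤ Real.log ‖t‖ + a ∧ Real.log ‖t‖ + a < 1 then
    ENNReal.ofReal ((‖t‖ ^ 2)⁻¹) else 0) = ENNReal.ofReal (2 * Real.pi) := by
  rw [← Complex.lintegral_comp_polarCoord_symm]
  simp only [Complex.norm_polarCoord_symm]
  obtain ⟨F, hF⟩ : ∃ F : ℝ → ENNReal, F = fun r => ENNReal.ofReal r •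
      (if 0 ≤ Real.log |r| + a ∧ Real.log |r| + a < 1 then
        ENNReal.ofReal ((|r| ^ 2)⁻¹) else 0) := ⟨_, rfl⟩
  have hFm : Measurable F := by
    rw [hF]
    refine Measurable.smul ENNReal.measurable_ofReal (Measurable.ite ?_ ?_ measurable_const)
    · refine MeasurableSet.inter ?_ ?_
      · exact measurableSet_le measurable_const
          ((Real.measurable_log.comp measurable_norm).add_const a)
      · exact measurableSet_lt ((Real.measurable_log.comp measurable_norm).add_const a)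
          measurable_const
    · exact ((measurable_norm.pow_const 2).inv).ennreal_ofReal
  have h1 : ∫⁻ p in polarCoord.target, F p.1 =
      (∫⁻ r in Set.Ioi (0 : ℝ), F r) * ∫⁻ _ in Set.Ioo (-Real.pi) Real.pi, (1 : ENNReal) := by
    rw [polarCoord_target, Measure.volume_eq_prod, ← Measure.prod_restrict,
      ← lintegral_prod_mul hFm.aemeasurable aemeasurable_const]
    simp
  have h2 : ∫⁻ r in Set.Ioi (0 : ℝ), F r = 1 := by
    have h3 : ∀ r : ℝ, (Set.Ioi (0 : ℝ)).indicator F r =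
        (Set.Ico (Real.exp (-a)) (Real.exp (1 - a))).indicator
          (fun r => ENNReal.ofReal r⁻¹) r := by
      intro r
      by_cases hr : 0 < r
      · rw [Set.indicator_of_mem (show r ∈ Set.Ioi (0 : ℝ) from hr), hF]
        simp only []
        rw [abs_of_pos hr]
        by_cases hc : 0 ≤ Real.log r + a ∧ Real.log r + a < 1
        · have hm : r ∈ Set.Ico (Real.exp (-a)) (Real.exp (1 - a)) := by
            refine ⟨(Real.le_log_iff_exp_le hr).mp (by linarith [hc.1]), ?_⟩
            exact (Real.log_lt_iff_lt_exp hr).mp (by linarith [hc.2])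
          rw [if_pos hc, Set.indicator_of_mem hm, smul_eq_mul, ← ENNReal.ofReal_mul hr.le]
          congr 1
          field_simp
        · have hm : r ∉ Set.Ico (Real.exp (-a)) (Real.exp (1 - a)) := by
            intro hm
            refine hc ⟨?_, ?_⟩
            · have := (Real.le_log_iff_exp_le hr).mpr hm.1
              linarith
            · have := (Real.log_lt_iff_lt_exp hr).mpr hm.2
              linarith
          rw [if_neg hc, Set.indicator_of_notMem hm, smul_zero]
      · have hm : r ∉ Set.Ico (Real.exp (-a)) (Real.exp (1 - a)) := fun hm =>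
          hr (lt_of_lt_of_le (Real.exp_pos _) hm.1)
        rw [Set.indicator_of_notMem (show r ∉ Set.Ioi (0 : ℝ) from hr),
          Set.indicator_of_notMem hm]
    rw [← lintegral_indicator measurableSet_Ioi]
    rw [lintegral_congr h3, lintegral_indicator measurableSet_Ico,
      lint_inv' (Real.exp_pos _) (Real.exp_lt_exp.mpr (by linarith)), ← Real.exp_sub,
      Real.log_exp]
    have : 1 - a - -a = 1 := by ring
    rw [this, ENNReal.ofReal_one]
  have h4 : ∫⁻ (p : ℝ × ℝ) in polarCoord.target, ENNReal.ofReal p.1 •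
      (if 0 ≤ Real.log |p.1| + a ∧ Real.log |p.1| + a < 1 then
        ENNReal.ofReal ((|p.1| ^ 2)⁻¹) else 0) = ∫⁻ p in polarCoord.target, F p.1 := by
    rw [hF]
  rw [h4, h1, h2, one_mul, setLIntegral_const, one_mul, Real.volume_Ioo]
  congr 1
  ring

theorem ell_smul {k : ℕ} (l : ℂ) (v : Fin (k + 1) → ℂ) (hl : l ≠ 0) (hv : v ≠ 0) :
    ell (l • v) = Real.log ‖l‖ + ell v := by
  have hl0 : 0 < ‖l‖ := norm_pos_iff.mpr hl
  have h1 : nsq (l • v) = ‖l‖ ^ 2 * nsq v := by
    unfold nsq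
    rw [Finset.mul_sum]
    refine Finset.sum_congr rfl fun i _ => ?_
    rw [Pi.smul_apply, smul_eq_mul, norm_mul, mul_pow]
  have h2 : nsq v ≠ 0 := by
    unfold nsq
    intro h0
    rw [Finset.sum_eq_zero_iff_of_nonneg (fun i _ => by positivity)] at h0
    refine hv (funext fun i => ?_)
    have := h0 i (Finset.mem_univ i)
    simpa using this
  unfold ell
  rw [h1, Real.log_mul (by positivity) h2, Real.log_pow]
  push_cast
  ring

theorem meas_ell {k : ℕ} : Measurable (ell : (Fin k → ℂ) → ℝ) := by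
  unfold ell nsq
  fun_prop

open Classical in
theorem pf_EA4 : T_EA4 := by
  intro k ψ hψ hhom c hc
  have hc0 : 0 < ‖c‖ := norm_pos_iff.mpr hc
  have hSm : MeasurableSet {z : Fin (k + 1) → ℂ | 0 ≤ ell z ∧ ell z < 1} :=
    (measurableSet_le measurable_const meas_ell).inter (measurableSet_lt meas_ell measurable_const)
  obtain ⟨G, hG⟩ : ∃ G : (Fin (k + 1) → ℂ) → ENNReal,
      G = {z : Fin (k + 1) → ℂ | 0 ≤ ell z ∧ ell z < 1}.indicator ψ := ⟨_, rfl⟩
  have hGm : Measurable G := by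
    rw [hG]
    exact hψ.indicator hSm
  obtain ⟨H, hH⟩ : ∃ H : ℂ → ℝ → ENNReal, H = fun t a =>
      if 0 ≤ Real.log ‖t‖ + a ∧ Real.log ‖t‖ + a < 1 then ENNReal.ofReal ((‖t‖ ^ 2)⁻¹) else 0 :=
    ⟨_, rfl⟩
  have hHm : Measurable (fun p : ℂ × ℝ => H p.1 p.2) := by
    rw [hH]
    have h1 : Measurable (fun p : ℂ × ℝ => Real.log ‖p.1‖ + p.2) :=
      (Real.measurable_log.comp (measurable_norm.comp measurable_fst)).add measurable_snd
    refine Measurable.ite ?_ ?_ measurable_const
    · exact (measurableSet_le measurable_const h1).inter (measurableSet_lt h1 measurable_const)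
    · exact (((measurable_norm.comp measurable_fst).pow_const 2).inv).ennreal_ofReal
  have hv : ∀ w : Fin k → ℂ, (ct c w : Fin (k + 1) → ℂ) ≠ 0 := by
    intro w h0
    have := congrFun h0 0
    simp [ct] at this
    exact hc this
  -- for one `t`
  have hone : ∀ t : ℂ, t ≠ 0 → ∫⁻ x : Fin k → ℂ, G (ct t x) =
      ∫⁻ w : Fin k → ℂ, ENNReal.ofReal (‖c‖ ^ 2) * (ψ (ct c w) *
        H t (ell (ct c w : Fin (k + 1) → ℂ) - Real.log ‖c‖)) := by
    intro t ht
    have ht0 : 0 < ‖t‖ := norm_pos_iff.mpr ht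
    obtain ⟨l, hl⟩ : ∃ l : ℂ, l = t / c := ⟨_, rfl⟩
    have hl0 : l ≠ 0 := by
      rw [hl]
      exact div_ne_zero ht hc
    have hln : 0 < ‖l‖ := norm_pos_iff.mpr hl0
    have hlt : l * c = t := by
      rw [hl]
      exact div_mul_cancel₀ t hc
    have hgm : Measurable (fun x : Fin k → ℂ => G (ct t x)) :=
      hGm.comp (meas_ct.comp (measurable_const.prodMk measurable_id))
    have hsc := scale l hl0 (fun x : Fin k → ℂ => G (ct t x)) hgm
    have h1 : ∫⁻ x : Fin k → ℂ, G (ct t x) =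
        ENNReal.ofReal (‖l‖ ^ (2 * k)) * ∫⁻ w : Fin k → ℂ, G (ct t (l • w)) := by
      rw [hsc, ← mul_assoc, ← ENNReal.ofReal_mul (by positivity),
        mul_inv_cancel₀ (by positivity), ENNReal.ofReal_one, one_mul]
    rw [h1, ← lintegral_const_mul' _ _ ENNReal.ofReal_ne_top]
    refine lintegral_congr fun w => ?_
    have h2 : (ct t (l • w) : Fin (k + 1) → ℂ) = l • ct c w := by
      funext i
      refine Fin.cases ?_ (fun j => ?_) i
      · simp [ct, hlt]
      · simp [ct]
    rw [h2, hG]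
    have h3 := ell_smul l (ct c w) hl0 (hv w)
    have h4 : Real.log ‖l‖ = Real.log ‖t‖ - Real.log ‖c‖ := by
      rw [hl, norm_div, Real.log_div ht0.ne' hc0.ne']
    have h5 : ell (l • (ct c w : Fin (k + 1) → ℂ)) =
        Real.log ‖t‖ + (ell (ct c w : Fin (k + 1) → ℂ) - Real.log ‖c‖) := by
      rw [h3, h4]
      ring
    rw [hH]
    by_cases hcond : 0 ≤ Real.log ‖t‖ + (ell (ct c w : Fin (k + 1) → ℂ) - Real.log ‖c‖) ∧
        Real.log ‖t‖ + (ell (ct c w : Fin (k + 1) → ℂ) - Real.log ‖c‖) < 1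
    · have hm : l • (ct c w : Fin (k + 1) → ℂ) ∈
          {z : Fin (k + 1) → ℂ | 0 ≤ ell z ∧ ell z < 1} := by
        show 0 ≤ ell (l • (ct c w : Fin (k + 1) → ℂ)) ∧ ell (l • (ct c w : Fin (k + 1) → ℂ)) < 1
        rw [h5]
        exact hcond
      rw [Set.indicator_of_mem hm, hhom l _ hl0 (hv w)]
      simp only []
      rw [if_pos hcond, ← mul_assoc, ← ENNReal.ofReal_mul (by positivity), mul_comm (ψ _),
        ← mul_assoc, ← ENNReal.ofReal_mul (by positivity)]
      congr 2
      have e1 : ‖l‖ = ‖t‖ / ‖c‖ := by rw [hl, norm_div]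
      have e2 : ‖l‖ ^ (2 * (k + 1)) = ‖l‖ ^ (2 * k) * ‖l‖ ^ 2 := by
        rw [← pow_add]
        congr 1
      rw [e2, mul_inv, ← mul_assoc, mul_inv_cancel₀ (by positivity), one_mul, e1, div_pow, inv_div,
        div_eq_mul_inv]
    · have hm : l • (ct c w : Fin (k + 1) → ℂ) ∉
          {z : Fin (k + 1) → ℂ | 0 ≤ ell z ∧ ell z < 1} := by
        intro hm
        have hm' : 0 ≤ ell (l • (ct c w : Fin (k + 1) → ℂ)) ∧
          ell (l • (ct c w : Fin (k + 1) → ℂ)) < 1 := hm
        rw [h5] at hm'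
        exact hcond hm'
      rw [Set.indicator_of_notMem hm]
      simp only []
      rw [if_neg hcond, mul_zero, mul_zero, mul_zero]
  rw [← lintegral_indicator hSm, ← hG, lint_ct G hGm]
  have hae : ∀ᵐ t : ℂ, t ≠ 0 := by
    have h1 : (volume : Measure ℂ) {0} = 0 := measure_singleton 0
    exact compl_mem_ae_iff.mpr h1
  rw [lintegral_congr_ae (hae.mono fun t ht => hone t ht)]
  have hct : Measurable (fun w : Fin k → ℂ => (ct c w : Fin (k + 1) → ℂ)) :=
    meas_ct.comp (measurable_const.prodMk measurable_id)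
  have hJ : Measurable (fun p : ℂ × (Fin k → ℂ) => ENNReal.ofReal (‖c‖ ^ 2) * (ψ (ct c p.2) *
      H p.1 (ell (ct c p.2 : Fin (k + 1) → ℂ) - Real.log ‖c‖))) := by
    refine Measurable.const_mul (Measurable.mul (hψ.comp (hct.comp measurable_snd)) ?_) _
    exact hHm.comp (measurable_fst.prodMk
      ((meas_ell.comp (hct.comp measurable_snd)).sub_const _))
  rw [lintegral_lintegral_swap hJ.aemeasurable]
  have hin : ∀ w : Fin k → ℂ, ∫⁻ t : ℂ, ENNReal.ofReal (‖c‖ ^ 2) * (ψ (ct c w) *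
      H t (ell (ct c w : Fin (k + 1) → ℂ) - Real.log ‖c‖)) =
      ENNReal.ofReal (2 * Real.pi * ‖c‖ ^ 2) * ψ (ct c w) := by
    intro w
    have hm : Measurable (fun t : ℂ => H t (ell (ct c w : Fin (k + 1) → ℂ) - Real.log ‖c‖)) :=
      hHm.comp (measurable_id.prodMk measurable_const)
    rw [lintegral_const_mul _ (hm.const_mul _), lintegral_const_mul _ hm, hH]
    simp only []
    rw [radial, mul_comm (ψ _), ← mul_assoc, ← ENNReal.ofReal_mul (by positivity)]
    congr 2
    ring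
  rw [lintegral_congr hin, lintegral_const_mul' _ _ ENNReal.ofReal_ne_top]

end Pool.Agent.H26.EHD.EA4
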