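import Pool.Agent.H92.EHD.TR

/-!
Row RLA: the heat potential.
-/

set_option autoImplicit false

open MeasureTheory Pool.Agent.H92.EQ Pool.Agent.H92.EHD

namespace Pool.Agent.H26.EHD

theorem mul_exp_neg_le_one (x : ℝ) : x * Real.exp (-x) ≤ 1 := by
  have h1 : x ≤ Real.exp x := by
    have := Real.add_one_le_exp x
    linarith
  rw [Real.exp_neg]
  have h2 : 0 < Real.exp x := Real.exp_pos x
  rw [← div_eq_mul_inv, div_le_one h2]
  exact h1

theorem pi_inv_le_one : Real.pi⁻¹ ≤ 1 := by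
  apply inv_le_one_of_one_le₀
  have := Real.pi_gt_three
  linarith

/-- far from `0` -/
theorem gs_far {s u : ℝ} (hs : 0 < s) (hs1 : s < 1) (z : ℂ) (hu : u = ‖z‖ ^ 2) (hu1 : 1 ≤ u) :
    gs s z ≤ Real.exp 1 * Real.exp (-u) := by
  unfold gs
  rw [← hu, mul_inv]
  have h1 : 1 ≤ s⁻¹ := (one_le_inv₀ hs).mpr hs1.le
  have h2 : -u / s ≤ -u + (1 - s⁻¹) := by
    have : -u / s = -u * s⁻¹ := by ring
    rw [this]
    nlinarith
  have h3 : Real.exp (-u / s) ≤ Real.exp (-u) * (Real.exp 1 * Real.exp (-s⁻¹)) := by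
    rw [← Real.exp_add, ← Real.exp_add]
    exact Real.exp_le_exp.mpr (by linarith)
  have h4 := mul_exp_neg_le_one s⁻¹
  have h5 : 0 < Real.exp (-u) * Real.exp 1 := by positivity
  calc Real.pi⁻¹ * s⁻¹ * Real.exp (-u / s) ≤ 1 * s⁻¹ * Real.exp (-u / s) := by
        have := pi_inv_le_one
        gcongr
    _ ≤ 1 * s⁻¹ * (Real.exp (-u) * (Real.exp 1 * Real.exp (-s⁻¹))) := by gcongr
    _ = (Real.exp (-u) * Real.exp 1) * (s⁻¹ * Real.exp (-s⁻¹)) := by ring
    _ ≤ (Real.exp (-u) * Real.exp 1) * 1 := mul_le_mul_of_nonneg_left h4 h5.le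
    _ = _ := by ring

theorem gs_near1 {s u : ℝ} (hs : 0 < s) (z : ℂ) (hu : u = ‖z‖ ^ 2) (hu0 : 0 < u) :
    gs s z ≤ u⁻¹ := by
  unfold gs
  rw [← hu, mul_inv]
  have h4 := mul_exp_neg_le_one (u / s)
  calc Real.pi⁻¹ * s⁻¹ * Real.exp (-u / s) ≤ 1 * s⁻¹ * Real.exp (-u / s) := by
        have := pi_inv_le_one
        gcongr
    _ = u⁻¹ * (u / s * Real.exp (-(u / s))) := by
        rw [neg_div]
        field_simp
    _ ≤ u⁻¹ * 1 := by gcongr
    _ = _ := mul_one _

theorem gs_near2 {s : ℝ} (hs : 0 < s) (z : ℂ) : gs s z ≤ s⁻¹ := by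
  unfold gs
  rw [mul_inv]
  have h1 : Real.exp (-‖z‖ ^ 2 / s) ≤ 1 := by
    refine Real.exp_le_one_iff.mpr ?_
    rw [neg_div]
    have : 0 ≤ ‖z‖ ^ 2 / s := by positivity
    linarith
  calc Real.pi⁻¹ * s⁻¹ * Real.exp (-‖z‖ ^ 2 / s) ≤ 1 * s⁻¹ * 1 := by
        have := pi_inv_le_one
        gcongr
    _ = _ := by ring

theorem lint_inv {u : ℝ} (hu : 0 < u) (hu1 : u < 1) :
    ∫⁻ s in Set.Ioc u 1, ENNReal.ofReal s⁻¹ = ENNReal.ofReal (-Real.log u) := by
  have h1 : IntervalIntegrable (fun s : ℝ => s⁻¹) volume u 1 := by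
    refine intervalIntegral.intervalIntegrable_inv (fun s hs => ?_) continuousOn_id
    rw [Set.uIcc_of_le hu1.le] at hs
    exact ne_of_gt (lt_of_lt_of_le hu hs.1)
  have h2 : IntegrableOn (fun s : ℝ => s⁻¹) (Set.Ioc u 1) volume :=
    (intervalIntegrable_iff_integrableOn_Ioc_of_le hu1.le).mp h1
  rw [← ofReal_integral_eq_lintegral_ofReal h2]
  · rw [← intervalIntegral.integral_of_le hu1.le, integral_inv_of_pos hu one_pos, one_div,
      Real.log_inv]
  · refine (ae_restrict_mem measurableSet_Ioc).mono fun s hs => ?_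
    have : 0 < s := lt_trans hu hs.1
    simp only [Pi.zero_apply]
    positivity

theorem pf_RLA : T_RLA := by
  refine ⟨?_, 2 * Real.exp 1, by positivity, fun z hz => ?_⟩
  · unfold Lam
    refine Measurable.lintegral_prod_right' (f := fun p : ℂ × ℝ => ENNReal.ofReal (gs p.2 p.1)) ?_
    unfold gs
    fun_prop
  · obtain ⟨u, hu⟩ : ∃ u : ℝ, u = ‖z‖ ^ 2 := ⟨_, rfl⟩
    have hz0 : 0 < ‖z‖ := norm_pos_iff.mpr hz
    have hu0 : 0 < u := by rw [hu]; positivity
    have hneg : -‖z‖ ^ 2 = -u := by rw [hu]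
    rw [hneg]
    have hmax : 0 ≤ max 0 (-Real.log ‖z‖) := le_max_left _ _
    have he1 : 1 ≤ Real.exp 1 := Real.one_le_exp zero_le_one
    unfold Lam
    rcases le_or_gt 1 u with hu1 | hu1
    · calc ∫⁻ s in Set.Ioo (0 : ℝ) 1, ENNReal.ofReal (gs s z)
          ≤ ∫⁻ _ in Set.Ioo (0 : ℝ) 1, ENNReal.ofReal (Real.exp 1 * Real.exp (-u)) :=
            setLIntegral_mono' measurableSet_Ioo fun s hs =>
              ENNReal.ofReal_le_ofReal (gs_far hs.1 hs.2 z hu hu1)
        _ = ENNReal.ofReal (Real.exp 1 * Real.exp (-u)) := by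
            rw [setLIntegral_const, Real.volume_Ioo, sub_zero, ENNReal.ofReal_one, mul_one]
        _ ≤ _ := by
            refine ENNReal.ofReal_le_ofReal ?_
            have h1 : 0 < Real.exp 1 * Real.exp (-u) := by positivity
            nlinarith [mul_nonneg h1.le hmax]
    · have hlog : -Real.log u = 2 * -Real.log ‖z‖ := by
        rw [hu, Real.log_pow]
        push_cast
        ring
      have hpos : 0 ≤ -Real.log u := by
        have := Real.log_nonpos hu0.le hu1.le
        linarith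
      calc ∫⁻ s in Set.Ioo (0 : ℝ) 1, ENNReal.ofReal (gs s z)
          ≤ ∫⁻ s in Set.Ioc 0 u ∪ Set.Ioc u 1, ENNReal.ofReal (gs s z) := by
            refine lintegral_mono_set fun s hs => ?_
            rcases le_or_gt s u with h | h
            · exact Or.inl ⟨hs.1, h⟩
            · exact Or.inr ⟨h, hs.2.le⟩
        _ ≤ (∫⁻ s in Set.Ioc 0 u, ENNReal.ofReal (gs s z)) +
              ∫⁻ s in Set.Ioc u 1, ENNReal.ofReal (gs s z) := lintegral_union_le _ _ _
        _ ≤ (∫⁻ _ in Set.Ioc 0 u, ENNReal.ofReal u⁻¹) +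
              ∫⁻ s in Set.Ioc u 1, ENNReal.ofReal s⁻¹ := by
            refine add_le_add ?_ ?_
            · exact setLIntegral_mono' measurableSet_Ioc fun s hs =>
                ENNReal.ofReal_le_ofReal (gs_near1 hs.1 z hu hu0)
            · exact setLIntegral_mono' measurableSet_Ioc fun s hs =>
                ENNReal.ofReal_le_ofReal (gs_near2 (lt_trans hu0 hs.1) z)
        _ = ENNReal.ofReal 1 + ENNReal.ofReal (-Real.log u) := by
            rw [lint_inv hu0 hu1, setLIntegral_const, Real.volume_Ioc, sub_zero,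
              ← ENNReal.ofReal_mul (by positivity), inv_mul_cancel₀ hu0.ne']
        _ = ENNReal.ofReal (1 + -Real.log u) := (ENNReal.ofReal_add zero_le_one hpos).symm
        _ ≤ _ := by
            refine ENNReal.ofReal_le_ofReal ?_
            have h1 : 1 ≤ Real.exp 1 * Real.exp (-u) := by
              rw [← Real.exp_add]
              exact Real.one_le_exp (by linarith)
            have h2 : -Real.log ‖z‖ ≤ max 0 (-Real.log ‖z‖) := le_max_right _ _
            rw [hlog]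
            nlinarith [mul_nonneg (sub_nonneg.mpr h1) (by linarith : 0 ≤ 1 + max 0 (-Real.log ‖z‖))]

end Pool.Agent.H26.EHD
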